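import Pool.Agent.K3h88.LCT.Stm

/-!
# Boundary points of half-space charts lie in the boundary complex

Brick BDR of project LCT of helper88.
-/

set_option autoImplicit false

namespace Pool.Agent.K3h94.LCT

open Finset Pool.Agent.Helper611 Pool.Agent.Helper611.ZBase Pool.Agent.Helper611.UTop
  Pool.Agent.Helper611.UMan Pool.Agent.K3h88.LCM Pool.Agent.K3h88.LCT

theorem sgn_smul_two {n : ℕ} (x : Fin n) (ρ : Finset (Fin n)) (a : ZMod 2) :
    sgn x ρ • a = a := by
  unfold sgn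
  rcases neg_one_pow_eq_or ℤ (ρ.filter (· < x)).card with h | h
  · rw [h, one_smul]
  · rw [h, neg_smul, one_smul, ZMod.neg_eq_self_mod_two]

theorem card_insert_eq {n : ℕ} (F : Finset (Finset (Fin n))) (hF : ∀ A ∈ F, A.card = 5)
    (ρ : Finset (Fin n)) (hρ : ρ.card = 4) :
    (ρᶜ.filter (fun x => insert x ρ ∈ F)).card = (F.filter (fun A => ρ ⊆ A)).card := by
  refine card_bij (fun x _ => insert x ρ) ?_ ?_ ?_
  · intro x hx
    exact mem_filter.2 ⟨(mem_filter.1 hx).2, subset_insert _ _⟩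
  · intro x hx y hy hxy
    have h1 : x ∈ insert y ρ := by
      rw [← hxy]
      exact mem_insert_self _ _
    rcases mem_insert.1 h1 with h | h
    · exact h
    · exact absurd h (mem_compl.1 (mem_filter.1 hx).1)
  · intro A hA
    obtain ⟨hAF, hρA⟩ := mem_filter.1 hA
    have h1 : (A \ ρ).card = 1 := by
      rw [card_sdiff_of_subset hρA, hF A hAF, hρ]
    obtain ⟨x, hx⟩ := card_eq_one.1 h1
    have hxm : x ∈ A \ ρ := by
      rw [hx]
      exact mem_singleton_self _
    have h2 : insert x ρ = A := by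
      refine eq_of_subset_of_card_le (insert_subset (mem_sdiff.1 hxm).1 hρA) ?_
      rw [card_insert_of_notMem (mem_sdiff.1 hxm).2, hρ, hF A hAF]
    refine ⟨x, mem_filter.2 ⟨mem_compl.2 (mem_sdiff.1 hxm).2, ?_⟩, h2⟩
    rw [h2]
    exact hAF

theorem bdr : StmBdr := by
  intro n F hF x c hx hc0
  classical
  obtain ⟨hxn, hx1, σ, hσ, hσ0⟩ := x.2
  let τ : Finset (Fin n) := univ.filter (fun v => 0 < x.1 v)
  have hτm : ∀ v, v ∈ τ ↔ 0 < x.1 v := fun v => by simp [τ]
  have hxτ : x.1 ∈ cell τ := ⟨hxn, hx1, fun v hv =>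
    le_antisymm (not_lt.1 fun h => hv ((hτm v).2 h)) (hxn v)⟩
  have hxp : ∀ v ∈ τ, 0 < x.1 v := fun v hv => (hτm v).1 hv
  have hτσ : τ ⊆ σ := by
    intro v hv
    by_contra h
    exact absurd (hσ0 v h) (ne_of_gt (hxp v hv))
  have hτne : τ.Nonempty := by
    rw [nonempty_iff_ne_empty]
    intro h
    have h1 : ∑ v, x.1 v = 0 := sum_eq_zero fun v _ => hxτ.2.2 v (by rw [h]; exact notMem_empty v)
    rw [hx1] at h1
    exact one_ne_zero h1
  have hτF : τ ∈ (kx F).faces := (kx F).down σ hσ τ hτσ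
  have hτf : τ ∈ faces F := by
    rcases mem_insert.1 hτF with h | h
    · exact absurd h hτne.ne_empty
    · exact h
  have hA : ∀ k, Acy (kx F) ℤ τ k := by
    intro k
    have hrange : Set.range (Subtype.val : {w : EE 4 // 0 ≤ w 0} → EE 4) = {w | 0 ≤ w 0} :=
      Subtype.range_coe
    obtain ⟨R, e, hR, h1, h2, h3, h4, h5⟩ := chart_data (kx F) Subtype.val
      Topology.IsEmbedding.subtypeVal c x hx
    rw [hrange] at h1 h2 h3
    let y : EE 4 := (c x).1
    have hrR : R / 2 < R := by linarith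
    have hsub : Metric.closedBall y (R / 2) ∩ {w : EE 4 | 0 ≤ w 0} ⊆
        Metric.ball y R ∩ {w : EE 4 | 0 ≤ w 0} := by
      rintro w ⟨hw, hw2⟩
      exact ⟨Metric.mem_ball.2 (lt_of_le_of_lt (Metric.mem_closedBall.1 hw) hrR), hw2⟩
    obtain ⟨O, hO, hO2⟩ := h5 (Metric.ball y (R / 2)) Metric.isOpen_ball (by
      rintro w ⟨hw, _⟩
      exact Metric.ball_subset_ball hrR.le hw)
    rw [hrange] at hO2
    exact acy_bdr (kx F) 0 τ hτF hτne x.1 hxτ hxp y hc0 (R / 2) (by positivity) e (h1.mono hsub)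
      (h2.mono hsub) (fun w hw => h3 w (hsub hw)) h4 O hO hO2 k
  by_contra hcon
  push Not at hcon
  have hno : ∀ t ∈ tets F 1, ¬ τ ⊆ t := by
    intro t ht h
    obtain ⟨v, hv, hv0⟩ := hcon t ht
    exact hv (h ((hτm v).2 (lt_of_le_of_ne (hxn v) hv0.symm)))
  let c0 : Finset (Fin n) → ZMod 2 := fun A => if A ∈ F ∧ τ ⊆ A then 1 else 0
  have hbd : ∀ ρ, τ ⊆ ρ → bd c0 ρ = 0 := by
    intro ρ hρ
    unfold bd
    simp_rw [sgn_smul_two]
    have h1 : ∑ x ∈ ρᶜ, c0 (insert x ρ) =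
        ((ρᶜ.filter (fun x => insert x ρ ∈ F)).card : ZMod 2) := by
      rw [card_filter]
      push_cast
      refine sum_congr rfl fun x _ => ?_
      show (if insert x ρ ∈ F ∧ τ ⊆ insert x ρ then (1 : ZMod 2) else 0) = _
      have h2 : τ ⊆ insert x ρ := hρ.trans (subset_insert _ _)
      simp only [h2, and_true]
    rw [h1]
    by_cases h4 : ρ.card = 4
    · rw [card_insert_eq F hF.pure ρ h4]
      have h2 := hF.two ρ h4
      have h3 : (F.filter (fun A => ρ ⊆ A)).card ≠ 1 := by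
        intro h3
        refine hno ρ ?_ hρ
        obtain ⟨A, hA⟩ := card_eq_one.1 h3
        have hAm : A ∈ F.filter (fun A => ρ ⊆ A) := by
          rw [hA]
          exact mem_singleton_self _
        refine mem_filter.2 ⟨K3h88.LCT.mem_faces.2 ⟨hτne.mono hρ, A, (mem_filter.1 hAm).1,
          (mem_filter.1 hAm).2⟩, h4, h3⟩
      interval_cases h5 : (F.filter (fun A => ρ ⊆ A)).card
      · rfl
      · exact absurd rfl h3
      · rfl
    · have h2 : ρᶜ.filter (fun x => insert x ρ ∈ F) = ∅ := by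
        refine filter_eq_empty_iff.2 fun x hx hxF => h4 ?_
        have h3 := hF.pure _ hxF
        rw [card_insert_of_notMem (mem_compl.1 hx)] at h3
        omega
      rw [h2]
      rfl
  obtain ⟨b, hb1, hb2⟩ := acy_change (R := ℤ) (M := ZMod 2) (kx F) τ 5 (fun k _ => hA k) 5 le_rfl
    c0 (by
      intro A hA0
      have h1 : A ∈ F ∧ τ ⊆ A := by
        by_contra h
        exact hA0 (if_neg h)
      refine ⟨mem_insert_of_mem (K3h88.LCT.mem_faces.2 ⟨hτne.mono h1.2, A, h1.1, Subset.refl _⟩), h1.2,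
        hF.pure A h1.1⟩) hbd
  have hb0 : ∀ ρ, b ρ = 0 := by
    intro ρ
    by_contra h
    obtain ⟨h1, -, h3⟩ := hb1 ρ h
    rcases mem_insert.1 h1 with h4 | h4
    · rw [h4, card_empty] at h3
      omega
    · obtain ⟨-, A, hAF, hρA⟩ := K3h88.LCT.mem_faces.1 h4
      have h5 := card_le_card hρA
      rw [hF.pure A hAF] at h5
      omega
  obtain ⟨-, A, hAF, hτA⟩ := K3h88.LCT.mem_faces.1 hτf
  have h1 := hb2 A hτA
  have h2 : bd b A = 0 := by
    unfold bd
    refine sum_eq_zero fun x _ => ?_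
    rw [hb0, smul_zero]
  rw [h2] at h1
  have h3 : c0 A = 1 := if_pos ⟨hAF, hτA⟩
  rw [h3] at h1
  exact zero_ne_one h1

end Pool.Agent.K3h94.LCT
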